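import Pool.Agent.H.MP_43e44c_ag.PE.CopA

/-!
# NC/Fock1: fermionic relations (helper3)

`x i : W → W` lives in the corner `Hom (ker e, range e)`, with the triple relations
`x_i x_j* x_l + x_l x_j* x_i = δ_ij x_l + δ_lj x_i`, and `sum x_i x_i* = α e`.
Commutation relations of `E_lm = x_l x_m*` and the weight spaces `FkH A`.
-/

namespace Pool.MP43e44c.NC

open Module

variable {W : Type*} [NormedAddCommGroup W] [InnerProductSpace ℂ W] [FiniteDimensional ℂ W]

/-- The relations. -/
structure Fk (d : ℕ) (e : Module.End ℂ W) (x : Fin d → Module.End ℂ W) : Prop where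
  he : e * e = e
  hes : star e = e
  ex : ∀ i, e * x i = x i
  xe : ∀ i, x i * e = 0
  tri : ∀ i j l, x i * star (x j) * x l + x l * star (x j) * x i =
    (if i = j then x l else 0) + (if l = j then x i else 0)

variable {d : ℕ} {e : Module.End ℂ W} {x : Fin d → Module.End ℂ W}

theorem end_app {a b : Module.End ℂ W} (h : a = b) (w : W) : a w = b w := by rw [h]

theorem star_inner (a : Module.End ℂ W) (v w : W) :
    inner ℂ ((star a) v) w = inner ℂ v (a w) := by
  rw [LinearMap.star_eq_adjoint, LinearMap.adjoint_inner_left]

theorem star_inner' (a : Module.End ℂ W) (v w : W) :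
    inner ℂ v ((star a) w) = inner ℂ (a v) w := by
  rw [LinearMap.star_eq_adjoint, LinearMap.adjoint_inner_right]

namespace Fk

variable (F : Fk d e x)

include F

theorem xx (i j : Fin d) : x i * x j = 0 := by
  rw [← F.ex j, ← mul_assoc, F.xe, zero_mul]

theorem sxx (i j : Fin d) : star (x i) * star (x j) = 0 := by
  rw [← star_mul, F.xx, star_zero]

theorem esx (i : Fin d) : e * star (x i) = 0 := by
  have h := congrArg star (F.xe i)
  rwa [star_mul, F.hes, star_zero] at h

theorem sxe (i : Fin d) : star (x i) * e = star (x i) := by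
  have h := congrArg star (F.ex i)
  rwa [star_mul, F.hes] at h

/-- The commutation relations. -/
theorem comm (l m i j : Fin d) :
    (x l * star (x m)) * (x i * star (x j)) - (x i * star (x j)) * (x l * star (x m)) =
      (if i = m then x l * star (x j) else 0) - (if j = l then x i * star (x m) else 0) := by
  have h1 := F.tri l m i
  have h2 := congrArg star (F.tri j l m)
  have h1' := congrArg (fun z => z * star (x j)) h1
  have h2' := congrArg (fun z => x i * z) h2
  have e1 : (x l * star (x m)) * (x i * star (x j)) =
      (if l = m then x i * star (x j) else 0) + (if i = m then x l * star (x j) else 0) -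
        x i * star (x m) * x l * star (x j) := by
    rw [eq_sub_iff_add_eq]
    have : (x l * star (x m) * x i + x i * star (x m) * x l) * star (x j) =
      ((if l = m then x i else 0) + (if i = m then x l else 0)) * star (x j) := h1'
    rw [add_mul, add_mul, ite_mul, ite_mul, zero_mul] at this
    rw [← this]
    simp only [mul_assoc]
  have e2 : (x i * star (x j)) * (x l * star (x m)) =
      (if j = l then x i * star (x m) else 0) + (if m = l then x i * star (x j) else 0) -
        x i * star (x m) * x l * star (x j) := by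
    rw [eq_sub_iff_add_eq]
    have h3 : x i * star (x j * star (x l) * x m + x m * star (x l) * x j) =
      x i * star ((if j = l then x m else 0) + (if m = l then x j else 0)) := h2'
    have h4 : star ((if j = l then x m else 0) + (if m = l then x j else 0)) =
      (if j = l then star (x m) else 0) + (if m = l then star (x j) else 0) := by
      rw [star_add]
      congr 1
      · split_ifs <;> simp
      · split_ifs <;> simp
    rw [h4, mul_add, mul_ite, mul_ite, mul_zero] at h3
    rw [← h3, star_add, star_mul, star_mul, star_mul, star_mul, star_star, mul_add]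
    simp only [mul_assoc]
    abel
  rw [e1, e2]
  have h5 : (if l = m then x i * star (x j) else (0 : Module.End ℂ W)) =
      if m = l then x i * star (x j) else 0 := by
    by_cases h : l = m
    · rw [if_pos h, if_pos h.symm]
    · rw [if_neg h, if_neg (fun h' => h h'.symm)]
  rw [h5]
  abel

theorem two_cancel {a b : Module.End ℂ W} (h : a + a = b + b) : a = b := by
  have h2 : (2 : ℂ) • a = (2 : ℂ) • b := by rw [two_smul, two_smul, h]
  have := congrArg (fun z => (2 : ℂ)⁻¹ • z) h2
  simpa [smul_smul] using this

theorem t1 (i : Fin d) : x i * star (x i) * x i = x i := by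
  have h := F.tri i i i
  rw [if_pos rfl] at h
  exact F.two_cancel h

theorem t2 {l m : Fin d} (h : l ≠ m) : x m * star (x l) * x m = 0 := by
  have h1 := F.tri m l m
  rw [if_neg (fun h' => h h'.symm)] at h1
  exact F.two_cancel h1

theorem t3 {l m : Fin d} (h : l ≠ m) :
    x l * star (x l) * x m + x m * star (x l) * x l = x m := by
  have h1 := F.tri l l m
  rw [if_pos rfl, if_neg (fun h' => h h'.symm), add_zero] at h1
  exact h1

end Fk

/-- The weight spaces. -/
def FkH (e : Module.End ℂ W) (x : Fin d → Module.End ℂ W) (A : Finset (Fin d)) (h : W) : Prop :=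
  e h = h ∧ ∀ i, x i ((star (x i)) h) = if i ∈ A then h else 0

namespace Fk

variable (F : Fk d e x)

include F

theorem sx_zero {A : Finset (Fin d)} {h : W} (hh : FkH e x A h) {l : Fin d} (hl : l ∉ A) :
    (star (x l)) h = 0 := by
  have h1 := hh.2 l
  rw [if_neg hl] at h1
  rw [← inner_self_eq_zero (𝕜 := ℂ), star_inner, h1, inner_zero_right]

theorem H_add {A : Finset (Fin d)} {h h' : W} (hh : FkH e x A h) (hh' : FkH e x A h') :
    FkH e x A (h + h') := by
  refine ⟨by rw [map_add, hh.1, hh'.1], fun i => ?_⟩
  rw [map_add, map_add, hh.2, hh'.2]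
  split_ifs <;> simp

theorem H_smul {A : Finset (Fin d)} {h : W} (c : ℂ) (hh : FkH e x A h) :
    FkH e x A (c • h) := by
  refine ⟨by rw [map_smul, hh.1], fun i => ?_⟩
  rw [map_smul, map_smul, hh.2]
  split_ifs <;> simp

/-- `E_ml` on the weight spaces. -/
theorem E_zero {A : Finset (Fin d)} {h : W} (hh : FkH e x A h) {l m : Fin d} (hl : l ∉ A) :
    x m ((star (x l)) h) = 0 := by
  rw [F.sx_zero hh hl, map_zero]

theorem E_zero' {A : Finset (Fin d)} {h : W} (hh : FkH e x A h) {l m : Fin d} (hlm : l ≠ m)
    (hm : m ∈ A) : x m ((star (x l)) h) = 0 := by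
  have h1 := hh.2 m
  rw [if_pos hm] at h1
  have h2 := end_app (F.t2 hlm) ((star (x m)) h)
  change x m ((star (x l)) (x m ((star (x m)) h))) = 0 at h2
  rwa [h1] at h2

theorem E_swap {A : Finset (Fin d)} {h : W} (hh : FkH e x A h) {l m : Fin d} (hl : l ∈ A)
    (hm : m ∉ A) : FkH e x (insert m (A.erase l)) (x m ((star (x l)) h)) ∧
      x l ((star (x m)) (x m ((star (x l)) h))) = h := by
  have hlm : l ≠ m := fun h' => hm (h' ▸ hl)
  refine ⟨⟨?_, fun i => ?_⟩, ?_⟩
  · exact end_app (F.ex m) _
  · have h1 := end_app (F.comm i i m l) h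
    have h1' : x i ((star (x i)) (x m ((star (x l)) h))) -
        x m ((star (x l)) (x i ((star (x i)) h))) =
        (if m = i then x i ((star (x l)) h) else 0) -
          (if l = i then x m ((star (x i)) h) else 0) := by
      have h2 : ((if m = i then x i * star (x l) else 0) -
          (if l = i then x m * star (x i) else 0) : Module.End ℂ W) h =
          (if m = i then x i ((star (x l)) h) else 0) -
          (if l = i then x m ((star (x i)) h) else 0) := by
        rw [LinearMap.sub_apply]
        congr 1
        · split_ifs <;> rfl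
        · split_ifs <;> rfl
      rw [← h2, ← h1]
      rfl
    rw [sub_eq_iff_eq_add] at h1'
    rw [h1', hh.2 i]
    by_cases hi : m = i
    · subst hi
      rw [if_pos rfl, if_neg hlm, if_neg hm, map_zero, map_zero, if_pos (Finset.mem_insert_self _ _)]
      simp
    · by_cases hi2 : l = i
      · subst hi2
        rw [if_neg hi, if_pos rfl, if_pos hl, if_neg]
        · simp
        · simp [hlm]
      · rw [if_neg hi, if_neg hi2]
        by_cases hi3 : i ∈ A
        · rw [if_pos hi3, if_pos]
          · simp
          · simp [hi3, Ne.symm hi2]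
        · rw [if_neg hi3, if_neg]
          · simp
          · simp [hi3, Ne.symm hi]
  · have h1 := end_app (F.comm l m m l) h
    have h1' : x l ((star (x m)) (x m ((star (x l)) h))) -
        x m ((star (x l)) (x l ((star (x m)) h))) =
        x l ((star (x l)) h) - x m ((star (x m)) h) := by
      rw [if_pos rfl, if_pos rfl] at h1
      exact h1
    rw [F.E_zero hh hm, map_zero, map_zero, sub_zero, hh.2 l, hh.2 m, if_pos hl, if_neg hm,
      sub_zero] at h1'
    exact h1'

/-- Existence of a weight vector. -/
theorem exists_weight (he0 : e ≠ 0) : ∃ A : Finset (Fin d), ∃ h : W, h ≠ 0 ∧ FkH e x A h := by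
  classical
  let Q : Finset (Fin d) → Prop := fun A => ∃ h : W, h ≠ 0 ∧ e h = h ∧
    ∀ i ∈ A, x i ((star (x i)) h) = h
  have hQ0 : Q ∅ := by
    obtain ⟨w, hw⟩ : ∃ w, e w ≠ 0 := by
      by_contra hcon
      push Not at hcon
      exact he0 (LinearMap.ext hcon)
    exact ⟨e w, hw, end_app F.he w, by simp⟩
  obtain ⟨A, hA1, hA2⟩ : ∃ A ∈ (Finset.univ : Finset (Finset (Fin d))).filter Q,
      ∀ B ∈ (Finset.univ : Finset (Finset (Fin d))).filter Q, B.card ≤ A.card :=
    Finset.exists_max_image _ _ ⟨∅, by simp [hQ0]⟩
  obtain ⟨h, h0, heh, hA⟩ := (Finset.mem_filter.1 hA1).2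
  refine ⟨A, h, h0, heh, fun i => ?_⟩
  by_cases hi : i ∈ A
  · rw [if_pos hi, hA i hi]
  · rw [if_neg hi]
    by_contra hne
    have h1 : Q (insert i A) := by
      refine ⟨x i ((star (x i)) h), hne, end_app (F.ex i) _, fun j hj => ?_⟩
      rcases Finset.mem_insert.1 hj with h2 | h2
      · subst h2
        exact end_app (F.t1 j) _
      · have hji : j ≠ i := fun h3 => hi (h3 ▸ h2)
        have h3 := F.comm j j i i
        rw [if_neg (Ne.symm hji), if_neg (Ne.symm hji), sub_zero, sub_eq_zero] at h3
        have h4 := end_app h3 h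
        change x j ((star (x j)) (x i ((star (x i)) h))) =
          x i ((star (x i)) (x j ((star (x j)) h))) at h4
        rw [h4, hA j h2]
    have h2 := hA2 _ (Finset.mem_filter.2 ⟨Finset.mem_univ _, h1⟩)
    rw [Finset.card_insert_of_notMem hi] at h2
    omega

end Fk

end Pool.MP43e44c.NC
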