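import Pool.Agent.H.MP_43e44c_ag.NC.Fock1

/-!
# NC/Fock2: the weight spaces are one dimensional, dimension counts (helper3)
-/

namespace Pool.MP43e44c.NC

open Module

variable {W : Type*} [NormedAddCommGroup W] [InnerProductSpace ℂ W] [FiniteDimensional ℂ W]

variable {d : ℕ} {e : Module.End ℂ W} {x : Fin d → Module.End ℂ W}

/-- Span of the `E_lm`. -/
def fkE (x : Fin d → Module.End ℂ W) : Submodule ℂ (Module.End ℂ W) :=
  Submodule.span ℂ (Set.range fun p : Fin d × Fin d => x p.1 * star (x p.2))

theorem fkE_mem (x : Fin d → Module.End ℂ W) (l m : Fin d) : x l * star (x m) ∈ fkE x :=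
  Submodule.subset_span ⟨(l, m), rfl⟩

theorem fkE_pow_zero (x : Fin d → Module.End ℂ W) : fkE x ^ 0 = 1 := Submodule.pow_zero _

theorem fkE_pow_succ (x : Fin d → Module.End ℂ W) (n : ℕ) :
    fkE x ^ (n + 1) = fkE x * fkE x ^ n := by
  induction n with
  | zero => rw [Submodule.pow_succ, Submodule.pow_zero, Submodule.one_mul, Submodule.mul_one]
  | succ n ih =>
    calc fkE x ^ (n + 1 + 1) = fkE x ^ (n + 1) * fkE x := rfl
      _ = (fkE x * fkE x ^ n) * fkE x := by rw [ih]
      _ = fkE x * (fkE x ^ n * fkE x) := mul_assoc _ _ _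
      _ = fkE x * fkE x ^ (n + 1) := rfl

namespace Fk

variable (F : Fk d e x)

include F

theorem comm_E (l m : Fin d) {Y : Module.End ℂ W} (hY : Y ∈ fkE x) :
    x l * star (x m) * Y - Y * (x l * star (x m)) ∈ fkE x := by
  refine Submodule.span_induction (p := fun Y _ =>
    x l * star (x m) * Y - Y * (x l * star (x m)) ∈ fkE x) ?_ ?_ ?_ ?_ hY
  · rintro _ ⟨⟨i, j⟩, rfl⟩
    change x l * star (x m) * (x i * star (x j)) - x i * star (x j) * (x l * star (x m)) ∈ fkE x
    rw [F.comm]
    refine (fkE x).sub_mem ?_ ?_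
    · split_ifs
      · exact fkE_mem x l j
      · exact (fkE x).zero_mem
    · split_ifs
      · exact fkE_mem x i m
      · exact (fkE x).zero_mem
  · rw [mul_zero, zero_mul, sub_zero]
    exact (fkE x).zero_mem
  · intro a b _ _ ha hb
    have : x l * star (x m) * (a + b) - (a + b) * (x l * star (x m)) =
      (x l * star (x m) * a - a * (x l * star (x m))) +
      (x l * star (x m) * b - b * (x l * star (x m))) := by
      rw [mul_add, add_mul]; abel
    rw [this]
    exact (fkE x).add_mem ha hb
  · intro c a _ ha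
    rw [mul_smul_comm, smul_mul_assoc, ← smul_sub]
    exact (fkE x).smul_mem c ha

theorem comm_pow (l m : Fin d) : ∀ (n : ℕ) (T : Module.End ℂ W), T ∈ fkE x ^ n →
    x l * star (x m) * T - T * (x l * star (x m)) ∈ fkE x ^ n := by
  intro n
  induction n with
  | zero =>
    intro T hT
    rw [fkE_pow_zero, Submodule.mem_one] at hT
    obtain ⟨c, rfl⟩ := hT
    rw [← Algebra.commutes, sub_self]
    exact Submodule.zero_mem _
  | succ n ih =>
    intro T hT
    rw [fkE_pow_succ] at hT ⊢
    refine Submodule.mul_induction_on hT ?_ ?_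
    · intro Y hY T' hT'
      have : x l * star (x m) * (Y * T') - Y * T' * (x l * star (x m)) =
        (x l * star (x m) * Y - Y * (x l * star (x m))) * T' +
        Y * (x l * star (x m) * T' - T' * (x l * star (x m))) := by
        simp only [mul_sub, sub_mul, mul_assoc]
        abel
      rw [this]
      exact Submodule.add_mem _ (Submodule.mul_mem_mul (F.comm_E l m hY) hT')
        (Submodule.mul_mem_mul hY (ih T' hT'))
    · intro a b ha hb
      have : x l * star (x m) * (a + b) - (a + b) * (x l * star (x m)) =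
        (x l * star (x m) * a - a * (x l * star (x m))) +
        (x l * star (x m) * b - b * (x l * star (x m))) := by
        rw [mul_add, add_mul]; abel
      rw [this]
      exact Submodule.add_mem _ ha hb

/-- Words do not connect orthogonal vectors of one weight. -/
theorem words {A : Finset (Fin d)} : ∀ (n : ℕ) (T : Module.End ℂ W), T ∈ fkE x ^ n →
    ∀ h h' : W, FkH e x A h → FkH e x A h' → inner ℂ h h' = 0 → inner ℂ (T h) h' = 0 := by
  intro n
  induction n with
  | zero =>
    intro T hT h h' _ _ horth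
    rw [fkE_pow_zero, Submodule.mem_one] at hT
    obtain ⟨c, rfl⟩ := hT
    change inner ℂ (c • h) h' = 0
    rw [inner_smul_left, horth, mul_zero]
  | succ n ih =>
    intro T hT h h' hh hh' horth
    rw [fkE_pow_succ] at hT
    refine Submodule.mul_induction_on hT ?_ ?_
    · intro Y hY T' hT'
      refine Submodule.span_induction (p := fun Y _ => inner ℂ ((Y * T') h) h' = 0) ?_ ?_ ?_ ?_ hY
      · rintro _ ⟨⟨l, m⟩, rfl⟩
        change inner ℂ (x l ((star (x m)) (T' h))) h' = 0
        by_cases hl : l ∈ A
        · by_cases hm : m ∈ A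
          · rw [← star_inner', star_inner]
            by_cases hlm : l = m
            · subst hlm
              rw [hh'.2 l, if_pos hl]
              exact ih T' hT' h h' hh hh' horth
            · rw [F.E_zero' hh' hlm hm, inner_zero_right]
          · have h1 := F.comm_pow l m n T' hT'
            have h2 := ih _ h1 h h' hh hh' horth
            have h3 : (x l * star (x m) * T' - T' * (x l * star (x m))) h =
                x l ((star (x m)) (T' h)) - T' (x l ((star (x m)) h)) := rfl
            rw [h3, F.E_zero hh hm, map_zero, sub_zero] at h2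
            exact h2
        · rw [← star_inner', F.sx_zero hh' hl, inner_zero_right]
      · rw [zero_mul, LinearMap.zero_apply, inner_zero_left]
      · intro a b _ _ ha hb
        rw [add_mul, LinearMap.add_apply, inner_add_left, ha, hb, add_zero]
      · intro c a _ ha
        rw [smul_mul_assoc, LinearMap.smul_apply, inner_smul_left, ha, mul_zero]
    · intro a b ha hb
      rw [LinearMap.add_apply, inner_add_left, ha, hb, add_zero]

theorem e_words {h : W} (hh : e h = h) : ∀ (n : ℕ) (T : Module.End ℂ W), T ∈ fkE x ^ n →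
    e (T h) = T h := by
  intro n
  induction n with
  | zero =>
    intro T hT
    rw [fkE_pow_zero, Submodule.mem_one] at hT
    obtain ⟨c, rfl⟩ := hT
    change e (c • h) = c • h
    rw [map_smul, hh]
  | succ n ih =>
    intro T hT
    rw [fkE_pow_succ] at hT
    refine Submodule.mul_induction_on hT ?_ ?_
    · intro Y hY T' hT'
      refine Submodule.span_induction (p := fun Y _ => e ((Y * T') h) = (Y * T') h) ?_ ?_ ?_ ?_ hY
      · rintro _ ⟨⟨l, m⟩, rfl⟩
        exact end_app (F.ex l) ((star (x m)) (T' h))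
      · simp
      · intro a b _ _ ha hb
        rw [add_mul, LinearMap.add_apply, map_add, ha, hb]
      · intro c a _ ha
        rw [smul_mul_assoc, LinearMap.smul_apply, map_smul, ha]
    · intro a b ha hb
      rw [LinearMap.add_apply, map_add, ha, hb]

/-- The weight spaces are at most one dimensional. -/
theorem orth_zero (irr : ∀ U : Submodule ℂ W, (∀ i, ∀ w ∈ U, x i w ∈ U) →
      (∀ i, ∀ w ∈ U, (star (x i)) w ∈ U) → U = ⊥ ∨ U = ⊤)
    {A : Finset (Fin d)} {h h' : W} (h0 : h ≠ 0) (hh : FkH e x A h) (hh' : FkH e x A h')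
    (horth : inner ℂ h h' = 0) : h' = 0 := by
  let U : Submodule ℂ W := Submodule.span ℂ
    ({w | ∃ n : ℕ, ∃ T ∈ fkE x ^ n, T h = w} ∪
      {w | ∃ n : ℕ, ∃ T ∈ fkE x ^ n, ∃ m, (star (x m)) (T h) = w})
  have hU1 : ∀ i, ∀ w ∈ U, x i w ∈ U := by
    intro i w hw
    refine Submodule.span_induction (p := fun w _ => x i w ∈ U) ?_ ?_ ?_ ?_ hw
    · rintro w (⟨n, T, hT, rfl⟩ | ⟨n, T, hT, m, rfl⟩)
      · have h1 : x i (T h) = 0 := by
          rw [← F.e_words hh.1 n T hT]
          exact end_app (F.xe i) _
        rw [h1]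
        exact U.zero_mem
      · refine Submodule.subset_span (Or.inl ⟨n + 1, x i * star (x m) * T, ?_, rfl⟩)
        rw [fkE_pow_succ]
        exact Submodule.mul_mem_mul (fkE_mem x i m) hT
    · rw [map_zero]; exact U.zero_mem
    · intro a b _ _ ha hb
      rw [map_add]; exact U.add_mem ha hb
    · intro c a _ ha
      rw [map_smul]; exact U.smul_mem c ha
  have hU2 : ∀ i, ∀ w ∈ U, (star (x i)) w ∈ U := by
    intro i w hw
    refine Submodule.span_induction (p := fun w _ => (star (x i)) w ∈ U) ?_ ?_ ?_ ?_ hw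
    · rintro w (⟨n, T, hT, rfl⟩ | ⟨n, T, hT, m, rfl⟩)
      · exact Submodule.subset_span (Or.inr ⟨n, T, hT, i, rfl⟩)
      · have h1 : (star (x i)) ((star (x m)) (T h)) = 0 := end_app (F.sxx i m) _
        rw [h1]
        exact U.zero_mem
    · rw [map_zero]; exact U.zero_mem
    · intro a b _ _ ha hb
      rw [map_add]; exact U.add_mem ha hb
    · intro c a _ ha
      rw [map_smul]; exact U.smul_mem c ha
  have hhU : h ∈ U := by
    refine Submodule.subset_span (Or.inl ⟨0, 1, ?_, rfl⟩)
    rw [fkE_pow_zero]
    exact Submodule.one_le.1 le_rfl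
  have htop : U = ⊤ := by
    rcases irr U hU1 hU2 with h1 | h1
    · rw [h1] at hhU
      exact absurd ((Submodule.mem_bot ℂ).1 hhU) h0
    · exact h1
  have hall : ∀ w ∈ U, inner ℂ w h' = 0 := by
    intro w hw
    refine Submodule.span_induction (p := fun w _ => inner ℂ w h' = 0) ?_ ?_ ?_ ?_ hw
    · rintro w (⟨n, T, hT, rfl⟩ | ⟨n, T, hT, m, rfl⟩)
      · exact F.words n T hT h h' hh hh' horth
      · rw [star_inner]
        have h1 : x m h' = 0 := by
          rw [← hh'.1]
          exact end_app (F.xe m) _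
        rw [h1, inner_zero_right]
    · rw [inner_zero_left]
    · intro a b _ _ ha hb
      rw [inner_add_left, ha, hb, add_zero]
    · intro c a _ ha
      rw [inner_smul_left, ha, mul_zero]
  have h2 : h' ∈ U := by rw [htop]; trivial
  exact inner_self_eq_zero.1 (hall h' h2)

/-- Proportionality in a weight space. -/
theorem prop_wt (irr : ∀ U : Submodule ℂ W, (∀ i, ∀ w ∈ U, x i w ∈ U) →
      (∀ i, ∀ w ∈ U, (star (x i)) w ∈ U) → U = ⊥ ∨ U = ⊤)
    {A : Finset (Fin d)} {h h' : W} (h0 : h ≠ 0) (hh : FkH e x A h) (hh' : FkH e x A h') :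
    ∃ c : ℂ, h' = c • h := by
  have hn : inner ℂ h h ≠ 0 := fun h1 => h0 (inner_self_eq_zero.1 h1)
  refine ⟨inner ℂ h h' / inner ℂ h h, ?_⟩
  have h1 : FkH e x A (h' + (-(inner ℂ h h' / inner ℂ h h)) • h) :=
    F.H_add hh' (F.H_smul _ hh)
  have h2 := F.orth_zero irr h0 hh h1 (by
    rw [inner_add_right, inner_smul_right]
    field_simp
    ring)
  rw [neg_smul, ← sub_eq_add_neg, sub_eq_zero] at h2
  exact h2

/-- All sets of the same size occur. -/
theorem exists_all {A : Finset (Fin d)} {h : W} (h0 : h ≠ 0) (hh : FkH e x A h)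
    (B : Finset (Fin d)) (hB : B.card = A.card) : ∃ h' : W, h' ≠ 0 ∧ FkH e x B h' := by
  classical
  induction hn : (A \ B).card generalizing A h with
  | zero =>
    have h1 : A ⊆ B := by
      rw [Finset.card_eq_zero, Finset.sdiff_eq_empty_iff_subset] at hn
      exact hn
    have h2 : A = B := Finset.eq_of_subset_of_card_le h1 (by omega)
    subst h2
    exact ⟨h, h0, hh⟩
  | succ n ih =>
    obtain ⟨l, hl⟩ : (A \ B).Nonempty := by
      rw [← Finset.card_pos]; omega
    obtain ⟨m, hm⟩ : (B \ A).Nonempty := by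
      rw [← Finset.card_pos, Finset.card_sdiff_comm hB]; omega
    rw [Finset.mem_sdiff] at hl hm
    obtain ⟨h1, h2⟩ := F.E_swap hh hl.1 hm.2
    have hne : x m ((star (x l)) h) ≠ 0 := by
      intro h3
      rw [h3, map_zero, map_zero] at h2
      exact h0 h2.symm
    refine ih hne h1 ?_ ?_
    · rw [Finset.card_insert_of_notMem, Finset.card_erase_of_mem hl.1]
      · have := Finset.card_pos.2 ⟨l, hl.1⟩
        omega
      · simp [hm.2]
    · have h3 : insert m (A.erase l) \ B = (A \ B).erase l := by
        ext i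
        simp only [Finset.mem_sdiff, Finset.mem_insert, Finset.mem_erase]
        constructor
        · rintro ⟨h4 | h4, h5⟩
          · subst h4
            exact absurd hm.1 h5
          · exact ⟨h4.1, h4.2, h5⟩
        · rintro ⟨h4, h5, h6⟩
          exact ⟨Or.inr ⟨h4, h5⟩, h6⟩
      rw [h3, Finset.card_erase_of_mem (Finset.mem_sdiff.2 hl), hn]
      rfl

end Fk

end Pool.MP43e44c.NC
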