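import Pool.Agent.H.MP_43e44c_ag.NC.Fock2

/-!
# NC/Fock3: the dimensions are binomial coefficients (helper3)
-/

namespace Pool.MP43e44c.NC

open Module

variable {W : Type*} [NormedAddCommGroup W] [InnerProductSpace ℂ W] [FiniteDimensional ℂ W]

variable {d : ℕ} {e : Module.End ℂ W} {x : Fin d → Module.End ℂ W}

namespace Fk

variable (F : Fk d e x)

include F

/-- The range of `e` has a basis of weight vectors. -/
theorem basis_wt (irr : ∀ U : Submodule ℂ W, (∀ i, ∀ w ∈ U, x i w ∈ U) →
      (∀ i, ∀ w ∈ U, (star (x i)) w ∈ U) → U = ⊥ ∨ U = ⊤)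
    {a : ℕ} (f : {B : Finset (Fin d) // B.card = a} → W) (hf0 : ∀ B, f B ≠ 0)
    (hf : ∀ B, FkH e x B.1 (f B)) (hne : Nonempty {B : Finset (Fin d) // B.card = a}) :
    LinearMap.range e = Submodule.span ℂ (Set.range f) := by
  classical
  let U : Submodule ℂ W := Submodule.span ℂ
    (Set.range f ∪ {w | ∃ B l, (star (x l)) (f B) = w})
  have hU1 : ∀ i, ∀ w ∈ U, x i w ∈ U := by
    intro i w hw
    refine Submodule.span_induction (p := fun w _ => x i w ∈ U) ?_ ?_ ?_ ?_ hw
    · rintro w (⟨B, rfl⟩ | ⟨B, l, rfl⟩)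
      · have h1 : x i (f B) = 0 := by
          rw [← (hf B).1]
          exact end_app (F.xe i) _
        rw [h1]
        exact U.zero_mem
      · by_cases hl : l ∈ B.1
        · by_cases hi : i ∈ B.1
          · by_cases hli : l = i
            · subst hli
              rw [(hf B).2 l, if_pos hl]
              exact Submodule.subset_span (Or.inl ⟨B, rfl⟩)
            · rw [F.E_zero' (hf B) hli hi]
              exact U.zero_mem
          · have hc : (insert i (B.1.erase l)).card = a := by
              rw [Finset.card_insert_of_notMem, Finset.card_erase_of_mem hl]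
              · have := Finset.card_pos.2 ⟨l, hl⟩
                have := B.2
                omega
              · simp [hi]
            obtain ⟨c, hc2⟩ := F.prop_wt irr (hf0 ⟨_, hc⟩) (hf ⟨_, hc⟩)
              (F.E_swap (hf B) hl hi).1
            rw [hc2]
            exact U.smul_mem c (Submodule.subset_span (Or.inl ⟨_, rfl⟩))
        · rw [F.E_zero (hf B) hl]
          exact U.zero_mem
    · rw [map_zero]; exact U.zero_mem
    · intro a b _ _ ha hb
      rw [map_add]; exact U.add_mem ha hb
    · intro c a _ ha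
      rw [map_smul]; exact U.smul_mem c ha
  have hU2 : ∀ i, ∀ w ∈ U, (star (x i)) w ∈ U := by
    intro i w hw
    refine Submodule.span_induction (p := fun w _ => (star (x i)) w ∈ U) ?_ ?_ ?_ ?_ hw
    · rintro w (⟨B, rfl⟩ | ⟨B, l, rfl⟩)
      · exact Submodule.subset_span (Or.inr ⟨B, i, rfl⟩)
      · have h1 : (star (x i)) ((star (x l)) (f B)) = 0 := end_app (F.sxx i l) _
        rw [h1]
        exact U.zero_mem
    · rw [map_zero]; exact U.zero_mem
    · intro a b _ _ ha hb
      rw [map_add]; exact U.add_mem ha hb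
    · intro c a _ ha
      rw [map_smul]; exact U.smul_mem c ha
  have htop : U = ⊤ := by
    rcases irr U hU1 hU2 with h1 | h1
    · exfalso
      obtain ⟨B⟩ := hne
      have h2 : f B ∈ U := Submodule.subset_span (Or.inl ⟨B, rfl⟩)
      rw [h1] at h2
      exact hf0 B ((Submodule.mem_bot ℂ).1 h2)
    · exact h1
  apply le_antisymm
  · rintro _ ⟨w, rfl⟩
    have hw : w ∈ U := by rw [htop]; trivial
    refine Submodule.span_induction (p := fun w _ => e w ∈ Submodule.span ℂ (Set.range f))
      ?_ ?_ ?_ ?_ hw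
    · rintro w (⟨B, rfl⟩ | ⟨B, l, rfl⟩)
      · rw [(hf B).1]
        exact Submodule.subset_span ⟨B, rfl⟩
      · have h1 : e ((star (x l)) (f B)) = 0 := end_app (F.esx l) _
        rw [h1]
        exact Submodule.zero_mem _
    · rw [map_zero]; exact Submodule.zero_mem _
    · intro a b _ _ ha hb
      rw [map_add]; exact Submodule.add_mem _ ha hb
    · intro c a _ ha
      rw [map_smul]; exact Submodule.smul_mem _ c ha
  · rw [Submodule.span_le]
    rintro _ ⟨B, rfl⟩
    exact ⟨f B, (hf B).1⟩

theorem card_wt {a : ℕ} (f : {B : Finset (Fin d) // B.card = a} → W) (hf0 : ∀ B, f B ≠ 0)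
    (hf : ∀ B, FkH e x B.1 (f B)) :
    finrank ℂ (Submodule.span ℂ (Set.range f)) = d.choose a := by
  classical
  have hli : LinearIndependent ℂ f := by
    refine linearIndependent_of_ne_zero_of_inner_eq_zero hf0 ?_
    intro B B' hBB
    obtain ⟨i, hi, hi'⟩ : ∃ i, i ∈ B.1 ∧ i ∉ B'.1 := by
      by_contra hcon
      push Not at hcon
      exact hBB (Subtype.ext (Finset.eq_of_subset_of_card_le hcon (by rw [B.2, B'.2])))
    have h1 := (hf B).2 i
    rw [if_pos hi] at h1
    change inner ℂ (f B) (f B') = 0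
    rw [← h1, ← star_inner', F.sx_zero (hf B') hi', inner_zero_right]
  rw [finrank_span_eq_card hli, Fintype.card_finset_len, Fintype.card_fin]

/-- **The dimensions**. -/
theorem dims (irr : ∀ U : Submodule ℂ W, (∀ i, ∀ w ∈ U, x i w ∈ U) →
      (∀ i, ∀ w ∈ U, (star (x i)) w ∈ U) → U = ⊥ ∨ U = ⊤)
    (he0 : e ≠ 0) (he1 : e ≠ 1) (α β : ℂ) (hα : ∑ i, x i * star (x i) = α • e)
    (hβ : ∑ i, star (x i) * x i = β • (1 - e)) :
    ∃ a : ℕ, 1 ≤ a ∧ a ≤ d ∧ α = (a : ℂ) ∧ β = ((d + 1 - a : ℕ) : ℂ) ∧
      finrank ℂ (LinearMap.range e) = d.choose a ∧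
      finrank ℂ (LinearMap.range (1 - e)) = d.choose (a - 1) := by
  classical
  obtain ⟨A, h, h0, hh⟩ := F.exists_weight he0
  choose f hf0 hf using fun B : {B : Finset (Fin d) // B.card = A.card} =>
    F.exists_all h0 hh B.1 B.2
  have hrange := F.basis_wt irr f hf0 hf ⟨⟨A, rfl⟩⟩
  have hr := F.card_wt f hf0 hf
  rw [← hrange] at hr
  -- alpha
  have hαA : α = (A.card : ℂ) := by
    have h1 := end_app hα h
    rw [LinearMap.sum_apply, LinearMap.smul_apply, hh.1] at h1
    have h2 : ∑ i, (x i * star (x i)) h = ∑ i, (if i ∈ A then h else 0) :=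
      Finset.sum_congr rfl fun i _ => hh.2 i
    rw [h2, Finset.sum_ite_mem, Finset.univ_inter, Finset.sum_const, ← Nat.cast_smul_eq_nsmul ℂ] at h1
    have h3 : ((A.card : ℂ) - α) • h = 0 := by rw [sub_smul, h1, sub_self]
    rcases smul_eq_zero.1 h3 with h4 | h4
    · exact (sub_eq_zero.1 h4).symm
    · exact absurd h4 h0
  -- some `x i` is not zero
  obtain ⟨i0, hi0⟩ : ∃ i, x i ≠ 0 := by
    by_contra hcon
    push Not at hcon
    rcases irr (LinearMap.range e) (fun i w _ => by
        rw [hcon i, LinearMap.zero_apply]; exact Submodule.zero_mem _) (fun i w _ => by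
        rw [hcon i, star_zero, LinearMap.zero_apply]; exact Submodule.zero_mem _) with h1 | h1
    · exact he0 (LinearMap.range_eq_bot.1 h1)
    · apply he1
      ext w
      have hw : w ∈ LinearMap.range e := by rw [h1]; trivial
      obtain ⟨w', rfl⟩ := hw
      exact end_app F.he w'
  obtain ⟨B, hB⟩ : ∃ B, (star (x i0)) (f B) ≠ 0 := by
    by_contra hcon
    push Not at hcon
    apply hi0
    have h1 : star (x i0) = 0 := by
      ext w
      have h2 : (star (x i0)) w = (star (x i0)) (e w) := end_app (F.sxe i0).symm w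
      have h3 : e w ∈ Submodule.span ℂ (Set.range f) := by rw [← hrange]; exact ⟨w, rfl⟩
      rw [h2, LinearMap.zero_apply]
      refine Submodule.span_induction (p := fun w _ => (star (x i0)) w = 0) ?_ ?_ ?_ ?_ h3
      · rintro _ ⟨B, rfl⟩
        exact hcon B
      · rw [map_zero]
      · intro a b _ _ ha hb
        rw [map_add, ha, hb, add_zero]
      · intro c a _ ha
        rw [map_smul, ha, smul_zero]
    have := congrArg star h1
    rwa [star_star, star_zero] at this
  have hi0B : i0 ∈ B.1 := by
    by_contra hcon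
    exact hB (F.sx_zero (hf B) hcon)
  have hA1 : 1 ≤ A.card := by
    rw [← B.2]
    exact Finset.card_pos.2 ⟨i0, hi0B⟩
  have hAd : A.card ≤ d := by
    have := Finset.card_le_univ A
    rwa [Fintype.card_fin] at this
  -- beta
  set w : W := (star (x i0)) (f B) with hw
  have hterm : ∀ i, (star (x i) * x i) w = if i = i0 ∨ i ∉ B.1 then w else 0 := by
    intro i
    change (star (x i)) (x i w) = _
    by_cases h1 : i = i0
    · rw [if_pos (Or.inl h1), h1, hw, (hf B).2 i0, if_pos hi0B]
    · by_cases h2 : i ∈ B.1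
      · rw [if_neg (by rintro (h3 | h3); exacts [h1 h3, h3 h2]), hw,
          F.E_zero' (hf B) (Ne.symm h1) h2, map_zero]
      · rw [if_pos (Or.inr h2)]
        have h3 := congrArg star (F.t3 h1)
        rw [star_add, star_mul, star_mul, star_mul, star_mul, star_star, ] at h3
        have h4 := end_app h3 (f B)
        change (star (x i0)) (x i ((star (x i)) (f B))) + (star (x i)) (x i ((star (x i0)) (f B))) =
          (star (x i0)) (f B) at h4
        rwa [F.E_zero (hf B) h2, map_zero, zero_add] at h4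
  have hβd : β = ((d + 1 - A.card : ℕ) : ℂ) := by
    have h1 := end_app hβ w
    have h2 : e w = 0 := end_app (F.esx i0) _
    rw [LinearMap.sum_apply, LinearMap.smul_apply, LinearMap.sub_apply, h2, sub_zero,
      Module.End.one_apply, Finset.sum_congr rfl (fun i _ => hterm i),
      ← Finset.sum_filter, Finset.sum_const, ← Nat.cast_smul_eq_nsmul ℂ] at h1
    have h3 : (Finset.univ.filter fun i => i = i0 ∨ i ∉ B.1) = insert i0 (B.1)ᶜ := by
      ext i
      simp
    rw [h3, Finset.card_insert_of_notMem (by simpa using hi0B), Finset.card_compl,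
      Fintype.card_fin, B.2] at h1
    have h4 : ((((d - A.card + 1 : ℕ) : ℂ)) - β) • w = 0 := by rw [sub_smul, h1, sub_self]
    rcases smul_eq_zero.1 h4 with h5 | h5
    · rw [← sub_eq_zero.1 h5]
      congr 1
      omega
    · exact absurd h5 hB
  refine ⟨A.card, hA1, hAd, hαA, hβd, hr, ?_⟩
  -- traces
  have htr : α * (finrank ℂ (LinearMap.range e) : ℂ) =
      β * (finrank ℂ (LinearMap.range (1 - e)) : ℂ) := by
    rw [← PE.cop_trace_idem e F.he, ← PE.cop_trace_idem (1 - e) (by
      rw [mul_sub, sub_mul, sub_mul, one_mul, one_mul, mul_one, F.he, sub_self, sub_zero]),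
      ← smul_eq_mul, ← smul_eq_mul, ← map_smul, ← map_smul, ← hα, ← hβ, map_sum, map_sum]
    exact Finset.sum_congr rfl fun i _ => PE.cop_trace_comm _ _
  rw [hαA, hβd, hr] at htr
  have h1 : A.card * d.choose A.card = (d + 1 - A.card) * finrank ℂ (LinearMap.range (1 - e)) := by
    exact_mod_cast htr
  have h2 := Nat.choose_succ_right_eq d (A.card - 1)
  have h3 : A.card - 1 + 1 = A.card := by omega
  rw [h3] at h2
  have h4 : d - (A.card - 1) = d + 1 - A.card := by omega
  rw [h4, mul_comm, h1, mul_comm (d.choose (A.card - 1))] at h2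
  exact Nat.eq_of_mul_eq_mul_left (by omega) h2

end Fk

end Pool.MP43e44c.NC
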